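import Pool.Agent.Y476.RM.Stm2

/-! # Job CONV of project HM: products of Fourier coefficients -/

set_option autoImplicit false
open MeasureTheory Filter Topology
open scoped ENNReal

namespace Pool.Agent.Y759.HM

open Pool.Agent.Y476.RM

theorem fourier_add_arg (n : ℤ) (x y : TT) :
    (fourier n (x + y) : ℂ) = fourier n x * fourier n y := by
  simp only [fourier_apply, smul_add, AddCircle.toCircle_add, Circle.coe_mul]

theorem t_conv : S_CONV := by
  classical
  intro ι S σ hσ
  induction S using Finset.induction_on with
  | empty =>
    refine ⟨Measure.dirac 0, inferInstance, fun n => ?_⟩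
    rw [integral_dirac, Finset.prod_empty]
    simp
  | insert a S ha ih =>
    obtain ⟨τ, hτ, h⟩ := ih
    have := hσ a
    refine ⟨((σ a).prod τ).map fun p => p.1 + p.2, inferInstance, fun n => ?_⟩
    rw [Finset.prod_insert ha, ← h n, integral_map (by fun_prop)]
    · rw [← integral_prod_mul]
      refine integral_congr_ae (Eventually.of_forall fun p => ?_)
      exact fourier_add_arg n p.1 p.2
    · exact (fourier n).continuous.aestronglyMeasurable

theorem t_dens : S_DENS := by
  intro σ hσ hac
  have hi : Integrable (fun x => (σ.rnDeriv volume x).toReal) (volume : Measure TT) :=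
    Measure.integrable_toReal_rnDeriv
  refine ⟨fun t => (σ.rnDeriv volume (t : TT)).toReal, ?_, fun n => ?_⟩
  · rw [intervalIntegrable_iff_integrableOn_Ioc_of_le zero_le_one]
    have hm := AddCircle.measurePreserving_mk (1 : ℝ) 0
    rw [zero_add] at hm
    exact hm.integrable_comp_of_integrable hi
  · rw [← integral_rnDeriv_smul hac]
    have h := AddCircle.intervalIntegral_preimage (1 : ℝ) 0
      (fun b : TT => (σ.rnDeriv volume b).toReal • (fourier (n : ℤ) b : ℂ))
    rw [zero_add] at h
    rw [← h]
    refine intervalIntegral.integral_congr fun t _ => ?_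
    simp only [fourier_coe_apply, Complex.real_smul]
    congr 2
    push_cast
    ring

end Pool.Agent.Y759.HM
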