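import Pool.Agent.Y476.RM.Stm2

/-! # Job QF of project HM: quadratic mean of sums of products along spread out times -/

set_option autoImplicit false
open MeasureTheory Filter Topology
open scoped ENNReal ComplexConjugate

namespace Pool.Agent.Y759.HM

open Pool.Agent.Y476.RM Pool.Agent.H716R2

universe u

theorem t_qf : S_QF.{u} := by
  intro X _ μ _ T hT r hfact s hs ι F hF hb p0 hp0 S c
  -- the products
  set P : ι → ι → ℕ → X → ℂ := fun i i' n x =>
    ∏ j, (F i j ((⇑T)^[s n j] x) * conj (F i' j ((⇑T)^[s n j] x))) with hP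
  have hlim : ∀ i i', Tendsto (fun n => ∫ x, P i i' n x ∂μ) atTop
      (𝓝 (∏ j, ∫ x, F i j x * conj (F i' j x) ∂μ)) := by
    intro i i'
    refine fact_fun_succ hT hfact hs (fun j x => F i j x * conj (F i' j x)) ?_ ?_ p0 ?_
    · intro j
      exact (hF i j).mul (Complex.continuous_conj.measurable.comp (hF i' j))
    · intro j
      obtain ⟨C, hC⟩ := hb i j
      obtain ⟨C', hC'⟩ := hb i' j
      refine ⟨C * C', fun x => ?_⟩
      rw [norm_mul, RCLike.norm_conj]
      exact mul_le_mul (hC x) (hC' x) (norm_nonneg _) ((norm_nonneg _).trans (hC x))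
    · intro x
      simp only [hp0, map_one, mul_one]
  have hmeas : ∀ i i' n, Measurable (P i i' n) := by
    intro i i' n
    refine Finset.measurable_prod _ fun j _ => ?_
    have h1 := iter_meas T (s n j)
    exact ((hF i j).comp h1).mul (Complex.continuous_conj.measurable.comp ((hF i' j).comp h1))
  have hint : ∀ i i' n, Integrable (P i i' n) μ := by
    intro i i' n
    choose C hC using fun j => hb i j
    choose C' hC' using fun j => hb i' j
    refine Integrable.of_bound (hmeas i i' n).aestronglyMeasurable (∏ j, (C j * C' j))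
      (Eventually.of_forall fun x => ?_)
    rw [hP, Complex.norm_prod]
    refine Finset.prod_le_prod (fun j _ => norm_nonneg _) fun j _ => ?_
    rw [norm_mul, RCLike.norm_conj]
    exact mul_le_mul (hC j _) (hC' j _) (norm_nonneg _) ((norm_nonneg _).trans (hC j (T^[s n j] x)))
  have hexp : ∀ n x, ((‖∑ i ∈ S, c i * ∏ j, F i j ((⇑T)^[s n j] x)‖ ^ 2 : ℝ) : ℂ)
      = ∑ i ∈ S, ∑ i' ∈ S, c i * conj (c i') * P i i' n x := by
    intro n x
    push_cast
    rw [← Complex.mul_conj', map_sum, Finset.sum_mul_sum]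
    refine Finset.sum_congr rfl fun i _ => Finset.sum_congr rfl fun i' _ => ?_
    have e : P i i' n x = (∏ j, F i j ((⇑T)^[s n j] x)) * ∏ j, conj (F i' j ((⇑T)^[s n j] x)) :=
      Finset.prod_mul_distrib
    rw [map_mul, map_prod, e]
    ring
  have hI : ∀ n, ∫ x, ‖∑ i ∈ S, c i * ∏ j, F i j ((⇑T)^[s n j] x)‖ ^ 2 ∂μ
      = (∑ i ∈ S, ∑ i' ∈ S, c i * conj (c i') * ∫ x, P i i' n x ∂μ).re := by
    intro n
    have h1 : ((∫ x, ‖∑ i ∈ S, c i * ∏ j, F i j ((⇑T)^[s n j] x)‖ ^ 2 ∂μ : ℝ) : ℂ)
        = ∑ i ∈ S, ∑ i' ∈ S, c i * conj (c i') * ∫ x, P i i' n x ∂μ := by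
      rw [← integral_complex_ofReal]
      simp_rw [hexp]
      rw [integral_finsetSum _ fun i _ => integrable_finsetSum _ fun i' _ =>
        (hint i i' n).const_mul _]
      refine Finset.sum_congr rfl fun i _ => ?_
      rw [integral_finsetSum _ fun i' _ => (hint i i' n).const_mul _]
      refine Finset.sum_congr rfl fun i' _ => ?_
      rw [integral_const_mul]
    rw [← h1, Complex.ofReal_re]
  simp_rw [hI]
  refine (Complex.continuous_re.tendsto _).comp ?_
  refine tendsto_finsetSum _ fun i _ => tendsto_finsetSum _ fun i' _ => ?_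
  exact (hlim i i').const_mul _

end Pool.Agent.Y759.HM
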